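import Pool.Agent.L7h3.SC.Stm

set_option autoImplicit false

/-! # Part DIR of project SC: copies of an unbounded sequence with a limit direction have a limit direction -/

namespace Pool.Agent.L7h37.SC

open Filter Topology Pool.Agent.L7h3.SC

theorem s_DIR : S_DIR := by
  intro E _ _ _ _ x p a u hc hR hU
  obtain ⟨R, hRdef⟩ : ∃ R : ℕ → ℝ, R = fun j => ‖x j - x a‖ := ⟨_, rfl⟩
  have hRx : ∀ j, ‖x j - x a‖ = R j := fun j => by rw [hRdef]
  have hRp : ∀ j, ‖p j - p a‖ = R j := fun j => by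
    rw [← dist_eq_norm, hc j a, dist_eq_norm, hRx]
  have hR0 : ∀ j, 0 ≤ R j := fun j => by rw [← hRx]; exact norm_nonneg _
  have hRt : Tendsto R atTop atTop := by
    refine hR.congr fun j => ?_
    rw [dist_eq_norm, hRx]
  obtain ⟨U, hUdef⟩ : ∃ U : ℕ → E, U = fun j => (R j)⁻¹ • (x j - x a) := ⟨_, rfl⟩
  obtain ⟨V, hVdef⟩ : ∃ V : ℕ → E, V = fun j => (R j)⁻¹ • (p j - p a) := ⟨_, rfl⟩
  have hU' : Tendsto U atTop (𝓝 u) := by
    rw [hUdef]
    refine hU.congr fun j => ?_
    rw [hRx]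
  have hUx : ∀ j, 0 < R j → R j • U j = x j - x a := by
    intro j hj
    rw [hUdef]
    simp only [smul_smul, mul_inv_cancel₀ hj.ne', one_smul]
  have hVx : ∀ j, 0 < R j → R j • V j = p j - p a := by
    intro j hj
    rw [hVdef]
    simp only [smul_smul, mul_inv_cancel₀ hj.ne', one_smul]
  have hU1 : ∀ j, 0 < R j → ‖U j‖ = 1 := by
    intro j hj
    rw [hUdef]
    simp only [norm_smul, norm_inv, Real.norm_eq_abs, abs_of_pos hj, hRx]
    exact inv_mul_cancel₀ hj.ne'
  have hV1 : ∀ j, 0 < R j → ‖V j‖ = 1 := by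
    intro j hj
    rw [hVdef]
    simp only [norm_smul, norm_inv, Real.norm_eq_abs, abs_of_pos hj, hRp]
    exact inv_mul_cancel₀ hj.ne'
  have hVb : ∀ j, V j ∈ Metric.closedBall (0 : E) 1 := by
    intro j
    rw [mem_closedBall_zero_iff]
    rcases (hR0 j).lt_or_eq with h | h
    · exact (hV1 j h).le
    · rw [hVdef]
      simp only [← h, inv_zero, zero_smul, norm_zero]
      exact zero_le_one
  have key : ∀ i j, 0 < R j → R j ≤ R i → 2 - ‖U i - U j‖ ≤ ‖V i + V j‖ := by
    intro i j hj hij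
    have hi : 0 < R i := lt_of_lt_of_le hj hij
    have h1 : ‖R i • V i - R j • V j‖ ≤ (R i - R j) + R j * ‖U i - U j‖ := by
      have h2 : ‖R i • V i - R j • V j‖ = ‖R i • U i - R j • U j‖ := by
        rw [hVx i hi, hVx j hj, hUx i hi, hUx j hj]
        have h3 : p i - p a - (p j - p a) = p i - p j := by abel
        have h4 : x i - x a - (x j - x a) = x i - x j := by abel
        rw [h3, h4, ← dist_eq_norm, ← dist_eq_norm, hc i j]
      rw [h2]
      have h5 : R i • U i - R j • U j = (R i - R j) • U i + R j • (U i - U j) := by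
        rw [sub_smul, smul_sub]
        abel
      rw [h5]
      refine (norm_add_le _ _).trans ?_
      rw [norm_smul, norm_smul, hU1 i hi, Real.norm_eq_abs, Real.norm_eq_abs,
        abs_of_nonneg (sub_nonneg.2 hij), abs_of_pos hj, mul_one]
    have h6 : R i + R j ≤ ‖R i • V i - R j • V j‖ + R j * ‖V i + V j‖ := by
      have h7 : (R i + R j) • V i = (R i • V i - R j • V j) + R j • (V i + V j) := by
        rw [add_smul, smul_add]
        abel
      have h8 : ‖(R i + R j) • V i‖ = R i + R j := by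
        rw [norm_smul, hV1 i hi, mul_one, Real.norm_eq_abs, abs_of_pos (add_pos hi hj)]
      rw [← h8, h7]
      refine (norm_add_le _ _).trans ?_
      rw [norm_smul, Real.norm_eq_abs, abs_of_pos hj]
    have h9 : R j * (2 - ‖U i - U j‖) ≤ R j * ‖V i + V j‖ := by linarith
    exact le_of_mul_le_mul_left h9 hj
  have norm_lim : ∀ (φ : ℕ → ℕ) (w : E), Tendsto φ atTop atTop →
      Tendsto (fun k => V (φ k)) atTop (𝓝 w) → ‖w‖ = 1 := by
    intro φ w hφ hw
    have h1 : Tendsto (fun k => ‖V (φ k)‖) atTop (𝓝 ‖w‖) := hw.norm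
    have h2 : (fun k => ‖V (φ k)‖) =ᶠ[atTop] fun _ => (1 : ℝ) := by
      filter_upwards [(hRt.comp hφ).eventually_gt_atTop 0] with k hk
      exact hV1 _ hk
    exact tendsto_nhds_unique (h1.congr' h2) tendsto_const_nhds
  have uniq : ∀ (φ ψ : ℕ → ℕ) (w w' : E), Tendsto φ atTop atTop → Tendsto ψ atTop atTop →
      Tendsto (fun k => V (φ k)) atTop (𝓝 w) → Tendsto (fun k => V (ψ k)) atTop (𝓝 w') →
      w' = w := by
    intro φ ψ w w' hφ hψ hw hw'
    have step1 : ∀ j, 0 < R j → 2 - ‖u - U j‖ ≤ ‖w' + V j‖ := by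
      intro j hj
      have hl : Tendsto (fun k => 2 - ‖U (ψ k) - U j‖) atTop (𝓝 (2 - ‖u - U j‖)) :=
        (((hU'.comp hψ).sub_const (U j)).norm).const_sub 2
      have hr : Tendsto (fun k => ‖V (ψ k) + V j‖) atTop (𝓝 ‖w' + V j‖) :=
        (hw'.add_const (V j)).norm
      refine le_of_tendsto_of_tendsto hl hr ?_
      filter_upwards [(hRt.comp hψ).eventually_ge_atTop (R j)] with k hk
      exact key _ _ hj hk
    have step2 : 2 - ‖u - u‖ ≤ ‖w' + w‖ := by
      have hl : Tendsto (fun k => 2 - ‖u - U (φ k)‖) atTop (𝓝 (2 - ‖u - u‖)) :=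
        (((hU'.comp hφ).const_sub u).norm).const_sub 2
      have hr : Tendsto (fun k => ‖w' + V (φ k)‖) atTop (𝓝 ‖w' + w‖) := (hw.const_add w').norm
      refine le_of_tendsto_of_tendsto hl hr ?_
      filter_upwards [(hRt.comp hφ).eventually_gt_atTop 0] with k hk
      exact step1 _ hk
    have hn := norm_lim φ w hφ hw
    have hn' := norm_lim ψ w' hψ hw'
    rw [sub_self, norm_zero, sub_zero] at step2
    refine eq_of_norm_eq_of_norm_add_eq (hn'.trans hn.symm) (le_antisymm (norm_add_le _ _) ?_)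
    rw [hn, hn']
    linarith
  obtain ⟨v, -, φ, hφ, hv⟩ := (isCompact_closedBall (0 : E) 1).tendsto_subseq hVb
  refine ⟨v, norm_lim φ v hφ.tendsto_atTop hv, ?_⟩
  have hfin : Tendsto V atTop (𝓝 v) := by
    refine tendsto_of_subseq_tendsto fun ns hns => ?_
    obtain ⟨w, -, ψ, hψ, hw⟩ :=
      (isCompact_closedBall (0 : E) 1).tendsto_subseq (fun k => hVb (ns k))
    have h1 : w = v := uniq φ (ns ∘ ψ) v w hφ.tendsto_atTop (hns.comp hψ.tendsto_atTop) hv hw
    exact ⟨ψ, by rw [← h1]; exact hw⟩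
  refine hfin.congr fun j => ?_
  rw [hRp, hVdef]

end Pool.Agent.L7h37.SC
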